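import Pool.Agent.H78.GS.TA3

/-!
# Row ASTP: doubling of the scale (helper73)
-/

set_option autoImplicit false

open Finset Pool.Agent.H6.N4D Pool.Agent.H78.GS

namespace Pool.Agent.H73.G3

lemma astp_rho {S : Par} (hS : S.Ok) : S.rho ≤ 1 := by
  have h1 : (1 : ℝ) ≤ S.X ^ (1 / 4 : ℝ) := Real.one_le_rpow hS.hX (by norm_num)
  have h2 := hS.hr1
  have h3 := hS.hr0
  nlinarith

/-- the dependence on the displacement -/
lemma astp_ds (S : Par) (e₁ : ℝ) (θ : ℤ → ℕ → ℝ) (D : ℕ) (c c' : ℝ) (t : ℤ) (j i : ℕ)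
    (he : 0 < e₁) (hr : 0 < S.rho) :
    ds S e₁ θ D c' t j i ≤ ds S e₁ θ D c t j i + S.rho / e₁ * |c - c'| := by
  unfold ds
  have hx : 0 < S.x t := Par.x_pos t
  set u : ℝ := θ (t + D) i - θ t j with hu
  have h1 : nd (u - c' / S.x t) ≤ nd (u - c / S.x t) + |c - c'| / S.x t := by
    have e : u - c' / S.x t = (u - c / S.x t) + (c - c') / S.x t := by ring
    rw [e]
    refine (nd_add_le _ _).trans (add_le_add (le_refl _) ?_)
    refine (nd_le_abs _).trans (le_of_eq ?_)
    rw [abs_div, abs_of_pos hx]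
  have h2 : 0 ≤ S.rho * S.x t / e₁ := by positivity
  have h3 := mul_le_mul_of_nonneg_left h1 h2
  refine h3.trans (le_of_eq ?_)
  rw [mul_add]
  congr 1
  field_simp

/-- a change of the displacement -/
lemma astp_hit {S : Par} {e₁ κ ν ν' : ℝ} {θ : ℤ → ℕ → ℝ} {F : ℤ → Finset ℕ} {D : ℕ} {c c' : ℝ}
    (he : 0 < e₁) (hr : 0 < S.rho) (h : Hit S e₁ κ ν θ F D c)
    (hc : ν + S.rho / e₁ * |c - c'| ≤ ν') : Hit S e₁ κ ν' θ F D c' := by
  unfold Hit at h ⊢
  refine le_trans (Par.cnt_mono ?_) h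
  rintro t - ⟨j, hj, hi⟩
  refine ⟨j, hj, fun i hi' => ?_⟩
  have h1 := hi i hi'
  have h2 := astp_ds S e₁ θ D c c' t j i he hr
  linarith

theorem pf_STP (hCMP : Pool.Agent.H78.GS.T_CMP) (hGRD : Pool.Agent.H78.GS.T_GRD)
    (hUNQ : Pool.Agent.H78.GS.T_UNQ) (hQCO : Pool.Agent.H78.GS.T_QCO) :
    Pool.Agent.H78.GS.T_STP := by
  intro S e₁ κ ν T s N θ F hS hN0 he0 he1 hν0 hν1 hκ0 hκ1 hs hN1 hNN hSep hRk hcard hdich hT hHT
  have hr0 := hS.hr0
  have hr1 := astp_rho hS
  have hh := hS.hh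
  have hNr : (1 : ℝ) ≤ N := by exact_mod_cast hN1
  have hir : 1 ≤ 1 / S.rho := by rw [le_div_iff₀ hr0]; linarith
  have hir2 : 1 / S.rho ^ 2 = (1 / S.rho) * (1 / S.rho) := by field_simp
  -- the model displacement
  set c₀ : ℕ → ℝ := fun D => T * (Real.exp (-(S.h * D)) - 1) with hc₀
  have hexp : ∀ D : ℕ, 0 < Real.exp (-(S.h * D)) ∧ Real.exp (-(S.h * D)) ≤ 1 := by
    intro D
    refine ⟨Real.exp_pos _, ?_⟩
    rw [Real.exp_le_one_iff]
    have : 0 ≤ S.h * D := mul_nonneg hh.le (Nat.cast_nonneg D)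
    linarith
  have hc₀a : ∀ D D' : ℕ, c₀ (D + D') = c₀ D + Real.exp (-(S.h * D)) * c₀ D' := by
    intro D D'
    simp only [hc₀]
    have : Real.exp (-(S.h * ((D + D' : ℕ) : ℝ))) =
        Real.exp (-(S.h * D)) * Real.exp (-(S.h * D')) := by
      rw [← Real.exp_add]
      congr 1
      push_cast
      ring
    rw [this]
    ring
  have hempty : S.cnt (fun t => F t = ∅) ≤ κ * S.N := by
    refine le_trans (Par.cnt_mono ?_) hRk
    intro t _ ht
    simp only [ht, card_empty]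
    omega
  -- step 1 and 2
  have hstep : ∀ D : ℕ, D ≤ 2 * N → ∃ c : ℝ, |c - c₀ D| ≤ 2 * ν * e₁ / S.rho ∧
      Hit S e₁ κ (ν / 16) θ F D c := by
    intro D hD
    have hD1 : min D N ≤ N := min_le_right _ _
    have hD2 : D - min D N ≤ N := by omega
    have hDs : min D N + (D - min D N) = D := by omega
    have h1 := hCMP S e₁ κ κ ν ν _ _ θ F (min D N) (D - min D N) hS hN0 he0 hν0.le hν0.le
      (hHT _ hD1) (hHT _ hD2)
    have h2 : T * (Real.exp (-(S.h * ((min D N : ℕ) : ℝ))) - 1) +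
        Real.exp (-(S.h * ((min D N : ℕ) : ℝ))) *
          (T * (Real.exp (-(S.h * ((D - min D N : ℕ) : ℝ))) - 1)) = c₀ D := by
      have := hc₀a (min D N) (D - min D N)
      rw [hDs] at this
      exact this.symm
    rw [h2, hDs] at h1
    have hsmall : ((min D N : ℕ) : ℝ) / S.N ≤ 1 / 200 := by
      rw [div_le_iff₀ hN0]
      have : ((min D N : ℕ) : ℝ) ≤ N := by exact_mod_cast hD1
      linarith
    have h3 := hGRD S e₁ κ (κ + κ + ((min D N : ℕ) : ℝ) / S.N) κ (ν / 16) (ν + ν) (c₀ D) θ F D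
      hS hN0 he0 (by positivity) (by positivity) hκ0 hempty h1 ?_ ?_
    · obtain ⟨c, hc1, hc2⟩ := h3
      refine ⟨c, hc1.trans (le_of_eq (by ring)), hc2⟩
    · intro c hc
      have hcb : |c| ≤ 1 / S.rho ^ 2 := by
        have e1 : |c₀ D| ≤ |T| := by
          simp only [hc₀]
          rw [abs_mul]
          have h5 : |Real.exp (-(S.h * D)) - 1| ≤ 1 := by
            rw [abs_le]
            constructor <;> linarith [(hexp D).1, (hexp D).2]
          calc |T| * |Real.exp (-(S.h * D)) - 1| ≤ |T| * 1 :=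
                mul_le_mul_of_nonneg_left h5 (abs_nonneg _)
            _ = |T| := mul_one _
        have e2 : |c| ≤ |c - c₀ D| + |c₀ D| := by
          have := abs_add_le (c - c₀ D) (c₀ D)
          simpa using this
        have e3 : (ν + ν) * e₁ / S.rho ≤ 1 / 2 * (1 / S.rho) := by
          have : (ν + ν) * e₁ ≤ 1 / 2 := by nlinarith
          calc (ν + ν) * e₁ / S.rho ≤ (1 / 2) / S.rho := by gcongr
            _ = _ := by ring
        have e4 : 1 / (2 * S.rho ^ 2) = 1 / 2 * ((1 / S.rho) * (1 / S.rho)) := by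
          rw [← hir2]; field_simp
        rw [hir2]
        rw [e4] at hT
        have e5 : 1 / S.rho ≤ (1 / S.rho) * (1 / S.rho) := by
          calc 1 / S.rho = (1 / S.rho) * 1 := (mul_one _).symm
            _ ≤ _ := mul_le_mul_of_nonneg_left hir (by positivity)
        linarith
      have h4 := hdich D c hD hcb
      have h6 : ν / 16 / 2 = ν / 32 := by ring
      rw [h6]
      exact h4
    · have h7 : 4 * (ν + ν) / (ν / 16) = 128 := by
        field_simp
        norm_num
      rw [h7]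
      linarith
  -- the choice
  have hch : ∃ c : ℕ → ℝ, ∀ D : ℕ, D ≤ 2 * N → |c D - c₀ D| ≤ 2 * ν * e₁ / S.rho ∧
      Hit S e₁ κ (ν / 16) θ F D (c D) := by
    classical
    refine ⟨fun D => if h : D ≤ 2 * N then (hstep D h).choose else 0, fun D hD => ?_⟩
    simp only [dif_pos hD]
    exact (hstep D hD).choose_spec
  obtain ⟨c, hc⟩ := hch
  set η : ℝ := 3 * ν / 16 * e₁ / S.rho with hη
  have hη0 : 0 ≤ η := by positivity
  -- the quasi-cocycle
  have hqc : ∀ D D' : ℕ, D + D' ≤ 2 * N →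
      |c (D + D') - c D - Real.exp (-(S.h * D)) * c D'| ≤ η := by
    intro D D' hDD
    obtain ⟨a1, a2⟩ := hc D (by omega)
    obtain ⟨b1, b2⟩ := hc D' (by omega)
    obtain ⟨d1, d2⟩ := hc (D + D') hDD
    have h1 := hCMP S e₁ κ κ (ν / 16) (ν / 16) _ _ θ F D D' hS hN0 he0 (by positivity)
      (by positivity) a2 b2
    have hsmall : (D : ℝ) / S.N ≤ 1 / 100 := by
      rw [div_le_iff₀ hN0]
      have : (D : ℝ) ≤ 2 * N := by
        have : D ≤ 2 * N := by omega
        exact_mod_cast this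
      linarith
    have hdiff : |c (D + D') - (c D + Real.exp (-(S.h * D)) * c D')| ≤ 6 * ν * e₁ / S.rho := by
      have e1 : c (D + D') - (c D + Real.exp (-(S.h * D)) * c D') =
          (c (D + D') - c₀ (D + D')) - (c D - c₀ D) -
            Real.exp (-(S.h * D)) * (c D' - c₀ D') := by
        rw [hc₀a D D']
        ring
      rw [e1]
      have e2 : |Real.exp (-(S.h * D)) * (c D' - c₀ D')| ≤ 2 * ν * e₁ / S.rho := by
        rw [abs_mul, abs_of_pos (hexp D).1]
        calc Real.exp (-(S.h * D)) * |c D' - c₀ D'| ≤ 1 * |c D' - c₀ D'| :=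
              mul_le_mul_of_nonneg_right (hexp D).2 (abs_nonneg _)
          _ ≤ _ := by rw [one_mul]; exact b1
      have e3 : 6 * ν * e₁ / S.rho = 3 * (2 * ν * e₁ / S.rho) := by ring
      rw [e3]
      set w := 2 * ν * e₁ / S.rho
      rw [abs_le] at a1 d1 e2 ⊢
      constructor <;> linarith [a1.1, a1.2, d1.1, d1.2, e2.1, e2.2]
    have h2 := hUNQ S e₁ κ (κ + κ + (D : ℝ) / S.N) κ κ (ν / 16) (ν / 16 + ν / 16) (c (D + D'))
      (c D + Real.exp (-(S.h * D)) * c D') θ F (D + D') s hS hN0 he0 (by linarith)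
      (by positivity) (by linarith) (by positivity) (by linarith) hs hSep hRk
      (hcard (D + D') hDD) d2 h1 (by linarith) ?_
    · have e4 : c (D + D') - c D - Real.exp (-(S.h * D)) * c D' =
          c (D + D') - (c D + Real.exp (-(S.h * D)) * c D') := by ring
      rw [e4]
      refine h2.trans (le_of_eq ?_)
      rw [hη]
      ring
    · refine hdiff.trans ?_
      rw [div_le_div_iff₀ hr0 (by positivity)]
      have : 6 * ν * e₁ ≤ 1 / 4 := by nlinarith
      nlinarith
  -- the coboundary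
  have hZ : ∀ D D' : ℕ, D + D' ≤ 2 * N →
      |(c (D + D') - c₀ (D + D')) - (c D - c₀ D) - Real.exp (-(S.h * D)) * (c D' - c₀ D')| ≤ η := by
    intro D D' hDD
    have h1 := hqc D D' hDD
    have e1 : (c (D + D') - c₀ (D + D')) - (c D - c₀ D) -
        Real.exp (-(S.h * D)) * (c D' - c₀ D') =
        c (D + D') - c D - Real.exp (-(S.h * D)) * c D' := by
      rw [hc₀a D D']
      ring
    rw [e1]
    exact h1
  obtain ⟨τ, hτ1, hτ2⟩ := hQCO S.h η (2 * N) (fun D => c D - c₀ D) hh (by omega) hη0 hZ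
  refine ⟨T - τ, ?_, ?_⟩
  · have h1 := (hc (2 * N) (le_refl _)).1
    have h2 := hτ1.trans h1
    have e1 : |T - τ - T| = |τ| := by
      have : T - τ - T = -τ := by ring
      rw [this, abs_neg]
    rw [e1]
    push_cast at h2
    exact h2
  · intro D hD
    obtain ⟨a1, a2⟩ := hc D hD
    refine astp_hit he0 hr0 a2 ?_
    have h1 := hτ2 D hD
    have e1 : c D - (T - τ) * (Real.exp (-(S.h * D)) - 1) =
        (c D - c₀ D) - τ * (1 - Real.exp (-(S.h * D))) := by
      simp only [hc₀]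
      ring
    rw [e1]
    have h2 : S.rho / e₁ * |(c D - c₀ D) - τ * (1 - Real.exp (-(S.h * D)))| ≤
        S.rho / e₁ * (5 * η) := mul_le_mul_of_nonneg_left h1 (by positivity)
    have h3 : S.rho / e₁ * (5 * η) = 15 / 16 * ν := by
      rw [hη]
      field_simp
      ring
    rw [h3] at h2
    linarith

end Pool.Agent.H73.G3
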